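import Mathlib
import Pool.Agent.H196R3.ParryB
import Pool.Agent.Results.MP_7ab245_nt.LinearRelations

/-!
# Parry powers of Perron numbers whose conjugates are linearly dependent
-/

set_option autoImplicit false

namespace Pool.Agent.Results.MP_1f45fc_nt.DependentConjugates

open Polynomial Module
open Pool.Agent.H196R3.Parry

/-- There is an absolute constant `c > 0` with the following property.  Let `β < 2` be a Perron
number of degree `d` and let `S` be a finite set of `k` complex numbers, each a product of at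
most `D` conjugates of `β` or inverses of conjugates, such that either `S` consists of conjugates
of `β` or no two members of `S` differ by a root of unity.  If the rational span of `S` has
dimension `r` and `log β * (D * k ^ 2 * log (2 k) ^ 4) < c * (d * (k - r))`, then `β ^ n` is a
Parry number for only finitely many `n`. -/
theorem result : ∃ c : ℝ, 0 < c ∧ ∀ β : ℝ, 1 < β → β < 2 → IsIntegral ℤ β →
    (∀ z : ℂ, aeval z (minpoly ℤ β) = 0 → z ≠ (β : ℂ) → ‖z‖ < β) →
    ∀ (S : Finset ℂ) (D : ℕ),
    (∀ x ∈ S, ∃ l : List ℂ, l.length ≤ D ∧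
      (∀ z ∈ l, aeval z (minpoly ℤ β) = 0 ∨ aeval z⁻¹ (minpoly ℤ β) = 0) ∧ x = l.prod) →
    ((∀ x ∈ S, aeval x (minpoly ℤ β) = 0) ∨
      (∀ x ∈ S, ∀ y ∈ S, x ≠ y → ∀ m : ℕ, 0 < m → x ^ m ≠ y ^ m)) →
    Real.log β * (D * (S.card : ℝ) ^ 2 * (Real.log (2 * S.card)) ^ 4) <
      c * ((minpoly ℤ β).natDegree *
        ((S.card : ℝ) - finrank ℚ (Submodule.span ℚ (S : Set ℂ)))) →
    Set.Finite {n : ℕ | 1 ≤ n ∧
      Set.Finite (Set.range (fun k : ℕ =>
        (fun x : ℝ => Int.fract (β ^ n * x))^[k] (1 : ℝ)))} := by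
  obtain ⟨c, hc, h⟩ := Pool.Agent.Results.MP_7ab245_nt.LinearRelations.result
  refine ⟨c, hc, ?_⟩
  intro β hβ hβ2 hint hperron S D hS htor hlt
  by_contra hinf
  have hinf' : {n : ℕ | 1 ≤ n ∧ (Set.range (orb (β ^ n))).Finite}.Infinite := hinf
  have hM := mahler_eq hβ hint (fun z hz hne => conj_le_one hβ hint hperron hinf' hz hne)
  have hz0 : ∀ z : ℂ, (aeval z (minpoly ℤ β) = 0 ∨ aeval z⁻¹ (minpoly ℤ β) = 0) → z ≠ 0 := by
    rintro z (hz | hz)
    · exact conj_ne_zero hβ hint hz
    · exact fun h0 => conj_ne_zero hβ hint hz (by rw [h0, inv_zero])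
  have hdeg : 0 < (minpoly ℤ β).natDegree := minpoly.natDegree_pos hint
  have h1 := h (minpoly ℤ β) (minpoly.irreducible hint) S (fun _ => D) (by
    intro x hx
    obtain ⟨l, hl1, hl2, hl3⟩ := hS x hx
    refine ⟨?_, l, hl1, hl2, hl3⟩
    rw [hl3]
    exact List.prod_ne_zero (fun h0 => hz0 0 (hl2 0 h0) rfl)) (by
    rcases htor with htor | htor
    · intro x hx y hy hxy m hm
      exact torsion_free hβ hint hperron (htor x hx) (htor y hy) hxy hm
    · exact htor)
  rw [hM, min_le_iff] at h1
  rcases h1 with h1 | h1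
  · linarith
  rw [← Real.le_log_iff_exp_le (by linarith)] at h1
  have hsum : ∑ x ∈ S, (((fun _ => D) x : ℕ) : ℝ) = S.card * D := by
    simp
  rw [hsum] at h1
  have hlβ : 0 < Real.log β := Real.log_pos hβ
  have hr : 0 ≤ (S.card : ℝ) - finrank ℚ (Submodule.span ℚ (S : Set ℂ)) := by
    have h4 := finrank_span_finset_le_card (R := ℚ) S
    have h5 : (finrank ℚ (Submodule.span ℚ (S : Set ℂ)) : ℝ) ≤ S.card := by exact_mod_cast h4
    linarith
  have hk0 : 0 ≤ (S.card : ℝ) := Nat.cast_nonneg _
  have hD0 : 0 ≤ (D : ℝ) := Nat.cast_nonneg _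
  have hpos : 0 < (S.card : ℝ) := by
    rcases hk0.lt_or_eq with h6 | h6
    · exact h6
    · exfalso
      rw [← h6] at hlt hr
      have h7 : (0 : ℝ) ≤ finrank ℚ (Submodule.span ℚ (S : Set ℂ)) := Nat.cast_nonneg _
      have h8 : ((finrank ℚ (Submodule.span ℚ (S : Set ℂ)) : ℕ) : ℝ) = 0 := by linarith
      rw [h8] at hlt
      simp at hlt
  have hk1 : (1:ℝ) ≤ S.card := by
    have : 0 < S.card := by exact_mod_cast hpos
    exact_mod_cast this
  have hlog : 0 < Real.log (2 * S.card) := Real.log_pos (by linarith)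
  rcases hD0.lt_or_eq with hDp | hDz
  · rw [div_le_iff₀ (by positivity)] at h1
    have h9 : Real.log β * (S.card * (S.card * D) * Real.log (2 * S.card) ^ 4) =
        Real.log β * (D * (S.card : ℝ) ^ 2 * (Real.log (2 * S.card)) ^ 4) := by ring
    rw [h9] at h1
    linarith
  · -- `D = 0`: every member of `S` is `1`
    have hD : D = 0 := by exact_mod_cast hDz.symm
    have hone : ∀ x ∈ S, x = 1 := by
      intro x hx
      obtain ⟨l, hl1, -, hl3⟩ := hS x hx
      rw [hD] at hl1
      rw [hl3, List.length_eq_zero_iff.mp (Nat.le_zero.mp hl1), List.prod_nil]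
    have hne : S.Nonempty := by
      rw [← Finset.card_pos]
      exact_mod_cast hpos
    obtain ⟨x, hx⟩ := hne
    have hS1 : S = {1} := by
      ext w
      rw [Finset.mem_singleton]
      constructor
      · exact hone w
      · rintro rfl
        have := hone x hx
        rw [this] at hx
        exact hx
    rw [hS1, Finset.card_singleton, Finset.coe_singleton, finrank_span_singleton one_ne_zero,
      ← hDz] at hlt
    simp at hlt

end Pool.Agent.Results.MP_1f45fc_nt.DependentConjugates
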