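import Mathlib
import Pool.Agent.H892.Parry.Common

/-!
# MP_1f45fc_nt: Perron numbers close to one with a multiple having few monomials

There is an absolute `c > 0` such that the following holds for every Perron number `β` of degree
`d`.  Let `F ≠ 0` be an integer multiple of the minimal polynomial of `β` with `k` nonzero
coefficients and put `x = deg F * k ^ 2 * (log 2k) ^ 4`.  If `log β ≤ c d / x` then `β ^ n` is not a
Parry number for `n ≥ x / c`.
-/

set_option autoImplicit false

open Polynomial Pool.Agent.H892.Parry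

namespace Pool.Agent.Results.MP_1f45fc_nt.FewMonomials

theorem result :
    ∃ c : ℝ, 0 < c ∧ ∀ β : ℝ, IsPerron β → ∀ F : ℤ[X], F ≠ 0 → minpoly ℤ β ∣ F →
      ∀ x : ℝ, x = F.natDegree * (F.support.card : ℝ) ^ 2 *
          (Real.log (2 * F.support.card)) ^ 4 →
        Real.log β ≤ c * deg β / x → ∀ n : ℕ, x / c ≤ n → ¬ IsParry (β ^ n) := by
  obtain ⟨c, hc, hmain⟩ := Pool.Agent.H388SL.main_log
  refine ⟨c / 2, by positivity, ?_⟩
  intro β h F hF hdvd x hx hlog n hn hp
  have hd := deg_pos h.2.1
  have hdF : deg β ≤ F.natDegree := natDegree_le_of_dvd hdvd hF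
  have hk : 1 ≤ F.support.card := by
    rw [Nat.one_le_iff_ne_zero, Finset.card_ne_zero, support_nonempty]
    exact hF
  have hkR : (1 : ℝ) ≤ F.support.card := by exact_mod_cast hk
  have hdR : (1 : ℝ) ≤ deg β := by exact_mod_cast hd
  have hdFR : (deg β : ℝ) ≤ F.natDegree := by exact_mod_cast hdF
  have hL : 0 < Real.log (2 * F.support.card) := Real.log_pos (by linarith)
  have hx0 : 0 < x := by
    rw [hx]
    have : (0 : ℝ) < F.natDegree := by linarith
    positivity
  have h1 := hmain (minpoly ℤ β) F hF hdvd (noCyc h.1 h.2.1)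
  have h1' : c * deg β / ((F.support.card : ℝ) ^ 2 * (Real.log (2 * F.support.card)) ^ 4) ≤
      F.natDegree * Real.log (M β) := h1
  have h2 : c * deg β / x ≤ Real.log (M β) := by
    have hy : (0 : ℝ) < (F.support.card : ℝ) ^ 2 * (Real.log (2 * F.support.card)) ^ 4 := by
      positivity
    have hF0 : (0 : ℝ) < F.natDegree := by linarith
    rw [div_le_iff₀ hy] at h1'
    rw [div_le_iff₀ hx0, hx]
    linarith
  have hn0 : 1 ≤ n := by
    have h3 : 0 < x / (c / 2) := by positivity
    have h4 : (0 : ℝ) < n := lt_of_lt_of_le h3 hn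
    exact_mod_cast h4
  have h5 := log_form h hn0 hp
  have h6 : c / 2 * deg β / x ≤ Real.log (M β) - Real.log β := by
    have h7 : c * deg β / x = c / 2 * deg β / x + c / 2 * deg β / x := by ring
    linarith
  have h8 : x / (c / 2) * (c / 2 * deg β / x) = deg β := by
    field_simp
  have h9 : x / (c / 2) * (c / 2 * deg β / x) ≤ n * (Real.log (M β) - Real.log β) := by
    apply mul_le_mul hn h6 (by positivity) (by positivity)
  linarith

end Pool.Agent.Results.MP_1f45fc_nt.FewMonomials
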