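import Mathlib
import Pool.Agent.H892.Parry.Common

/-!
# MP_1f45fc_nt: minimal polynomials with few terms modulo a prime

Let `β < τ₁₀` be a Perron number of degree `d` such that, for some prime `p` and some nonzero `Q`
over `ZMod p` which is reciprocal up to sign and has `15 deg Q ≤ d` (for instance `Q = 1`), the
product of `Q` and the minimal polynomial of `β` modulo `p` has at most four nonzero coefficients.
Then `β ^ n` is not a Parry number for `n ≥ 7680 d`.  In particular no such `β` is a Salem number.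
-/

set_option autoImplicit false

open Polynomial Pool.Agent.H892.Parry

namespace Pool.Agent.Results.MP_1f45fc_nt.FourTerms

theorem result :
    ∀ τ : ℝ, 1 < τ →
      τ ^ 10 + τ ^ 9 - τ ^ 7 - τ ^ 6 - τ ^ 5 - τ ^ 4 - τ ^ 3 + τ + 1 = 0 →
      ∀ β : ℝ, IsPerron β → β < τ → ∀ (p : ℕ) [Fact p.Prime] (Q : (ZMod p)[X]), Q ≠ 0 →
        (Q.reverse = Q ∨ Q.reverse = -Q) → 15 * Q.natDegree ≤ deg β →
        (Q * (minpoly ℤ β).map (Int.castRingHom (ZMod p))).support.card ≤ 4 →
        ∀ n : ℕ, 7680 * deg β ≤ n → ¬ IsParry (β ^ n) := by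
  intro τ hτ1 hτ β h hβτ p hpr
  have hτ2 := lehmer_lt hτ1 hτ
  have hβ0 : 0 < β := by linarith [h.1]
  have hd := deg_pos h.2.1
  have hM := one_le_M h.2.1
  intro Q hQ0 hQ hQd hcard n hn hp
  have h4 := Pool.Agent.H338R2.four_main p (minpoly ℤ β) (noCyc' h.1 h.2.1) Q hQ0 hQ hcard
  have h4' : (2 : ℝ) ^ deg β ≤ M β ^ (4 * (deg β + Q.natDegree)) := h4
  have h5 : ((2 : ℝ) ^ 15) ^ deg β ≤ (M β ^ 64) ^ deg β := by
    calc ((2 : ℝ) ^ 15) ^ deg β = ((2 : ℝ) ^ deg β) ^ 15 := by
          rw [← pow_mul, ← pow_mul, mul_comm]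
      _ ≤ (M β ^ (4 * (deg β + Q.natDegree))) ^ 15 := pow_le_pow_left₀ (by positivity) h4' _
      _ = M β ^ (4 * (deg β + Q.natDegree) * 15) := by rw [← pow_mul]
      _ ≤ M β ^ (64 * deg β) := pow_le_pow_right₀ hM (by omega)
      _ = (M β ^ 64) ^ deg β := by rw [pow_mul]
  have h6 : (2 : ℝ) ^ 15 ≤ M β ^ 64 :=
    (pow_le_pow_iff_left₀ (by norm_num) (by positivity) (by omega)).mp h5
  exact key (r := 1.0058) (B := 1.17629) (A := 2 ^ 15) (s := 64) (t := 120) hβ0 (by linarith)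
    (by norm_num) (by norm_num) h6 (by norm_num) (by linarith) (by norm_num) hd (by omega)
    (general h (by omega) hp)

end Pool.Agent.Results.MP_1f45fc_nt.FourTerms
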