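import Mathlib
import Pool.Agent.H389R3.PR1

/-!
# Parry powers of Perron numbers with many conjugates in `ℚ_p`

`Pool.Agent.H389R3.LP.padicRoots f p` is the number of zeros of `f` in `ℚ_p` (with multiplicity);
`Pool.Agent.H389R3.PR.parry β` is the set of the `m ≥ 1` such that the orbit of `1` under
`y ↦ fract (β ^ m * y)` is finite, that is, such that `β ^ m` is a Parry number.
-/

set_option autoImplicit false

open Polynomial

namespace Pool.Agent.Results.MP_1f45fc_nt.PadicConjugates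

open Pool.Agent.H389R3.LP Pool.Agent.H389R3.PR

/-- Let `β > 1` be a Perron number of degree `n`, let `p` be a prime and let `R` be the number of
zeros in `ℚ_p` of the minimal polynomial of `β`. Put
`h = min (R ^ 2 / n) (R ^ 4 / (n ^ 2 log (2 n)))`.
(1) If `β < min 2 (exp (h / (4 * 10 ^ 7 (p - 1) ^ 5)))` then `β ^ m` is a Parry number for only
finitely many `m`.
(2) If `β` is smaller than Lehmer's number `τ` and `h ≥ 8 * 10 ^ 6 (p - 1) ^ 5` then `β ^ m` is a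
Parry number for only finitely many `m`. -/
theorem result :
    (∀ β : ℝ, 1 < β → IsIntegral ℤ β →
      (∀ z : ℂ, aeval z (minpoly ℤ β) = 0 → z ≠ (β : ℂ) → ‖z‖ < β) →
      ∀ (p : ℕ) [Fact p.Prime],
        β < min 2 (Real.exp (min ((padicRoots (minpoly ℤ β) p : ℝ) ^ 2 /
          (minpoly ℤ β).natDegree) ((padicRoots (minpoly ℤ β) p : ℝ) ^ 4 /
            (((minpoly ℤ β).natDegree : ℝ) ^ 2 * Real.log (2 * (minpoly ℤ β).natDegree))) /
            (4 * 10 ^ 7 * ((p : ℝ) - 1) ^ 5))) →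
        (parry β).Finite) ∧
    (∀ τ : ℝ, 1 < τ →
      τ ^ 10 + τ ^ 9 - τ ^ 7 - τ ^ 6 - τ ^ 5 - τ ^ 4 - τ ^ 3 + τ + 1 = 0 →
      ∀ β : ℝ, 1 < β → β < τ → IsIntegral ℤ β →
      (∀ z : ℂ, aeval z (minpoly ℤ β) = 0 → z ≠ (β : ℂ) → ‖z‖ < β) →
      ∀ (p : ℕ) [Fact p.Prime],
        8 * 10 ^ 6 * ((p : ℝ) - 1) ^ 5 ≤ min ((padicRoots (minpoly ℤ β) p : ℝ) ^ 2 /
          (minpoly ℤ β).natDegree) ((padicRoots (minpoly ℤ β) p : ℝ) ^ 4 /
            (((minpoly ℤ β).natDegree : ℝ) ^ 2 * Real.log (2 * (minpoly ℤ β).natDegree))) →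
        (parry β).Finite) :=
  ⟨fun _ h1 h2 h3 p _ h4 => main h1 h2 h3 p h4,
    fun _ hτ1 hτ _ h1 hβτ h2 h3 p _ h4 => main_lehmer hτ1 hτ h1 hβτ h2 h3 p h4⟩

end Pool.Agent.Results.MP_1f45fc_nt.PadicConjugates
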